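import Mathlib
import Pool.Agent.Helper44.EngelBranchDefs
import Pool.Agent.Helper44.BranchEngelD

/-!
# A finitely generated branch group that is not torsion and satisfies an Engel type iterated identity

The word is `w₀ = [x_0, x_1⁻¹ x_0 x_1]`.  The group is a regular branch group acting on the tree of
words over `X = (ZMod N) ^ 13`, generated by rooted translations `a_j` and directed automorphisms
`b_j`; the two generators `a_j, b_j` commute, and any product of at most twelve syllables from
the groups `⟨a_j, b_j⟩` has all its first level sections equal to single syllables.
-/

set_option autoImplicit false

namespace Pool.Agent.Results.MP_019d96_al.EngelCounterexample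

open Pool.Agent.Helper44.EngelBranch

/-- The word `w₀ = [x_0, x_1⁻¹ x_0 x_1]` is non-trivial, and there is a finitely generated branch
group that satisfies the Engel type iterated identity `w₀` and contains an element of infinite
order. -/
theorem result :
    w₀ ≠ 1 ∧ ∃ (G : Type) (_ : Group G), Group.FG G ∧ IsBranchGroup G ∧
      SatisfiesEngelTypeIdentity G w₀ ∧ ∃ g : G, ¬ IsOfFinOrder g :=
  main_theorem

end Pool.Agent.Results.MP_019d96_al.EngelCounterexample
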